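import Mathlib
import Pool.Agent.H359R2.Tau

/-!
Large square divisors of `n ^ 2 + D` are rare (`D ≥ 1` fixed), and the second moment of the divisor
function of `n ^ 2 + D`. Part of project GA (helper78), GA-22.
-/

set_option autoImplicit false

namespace Pool.Agent.W898.GA

open Filter Finset
open H359R2 (tau tsm tsm_le exists_small_divisor)

theorem sum_inv_sq (J Y : ℕ) (hJ : 1 ≤ J) :
    ∑ j ∈ Ioc J Y, (1 : ℝ) / (j : ℝ) ^ 2 ≤ 1 / J := by
  have hJ' : (0 : ℝ) < J := by exact_mod_cast hJ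
  rcases Nat.lt_or_ge Y J with h | h
  · rw [Ioc_eq_empty (by omega)]; simp
  · have key : ∀ Y, J ≤ Y → ∑ j ∈ Ioc J Y, (1 : ℝ) / (j : ℝ) ^ 2 ≤ 1 / J - 1 / Y := by
      intro Y hY
      induction Y, hY using Nat.le_induction with
      | base => simp
      | succ Y hY ih =>
        have hY' : (0 : ℝ) < Y := by
          have : 0 < Y := by omega
          exact_mod_cast this
        rw [← Finset.insert_Ioc_right_eq_Ioc_add_one (by omega), sum_insert (by simp)]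
        have h2 : (1 : ℝ) / ((Y + 1 : ℕ) : ℝ) ^ 2 ≤ 1 / Y - 1 / ((Y + 1 : ℕ) : ℝ) := by
          push_cast
          have e : (1 : ℝ) / Y - 1 / (Y + 1) = 1 / (Y * (Y + 1)) := by field_simp; ring
          rw [e]
          apply one_div_le_one_div_of_le (by positivity)
          nlinarith
        linarith
    have := key Y h
    have h2 : (0 : ℝ) ≤ 1 / Y := by positivity
    linarith

/-- integers up to `N` with `q ∣ n ^ 2 + D` -/
def DQ (D q N : ℕ) : Finset ℕ := (range (N + 1)).filter fun n => q ∣ n ^ 2 + D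

theorem mem_DQ {D q N n : ℕ} : n ∈ DQ D q N ↔ n ≤ N ∧ q ∣ n ^ 2 + D := by
  unfold DQ
  rw [mem_filter, mem_range, Nat.lt_succ_iff]

theorem fibre_dvd {D q : ℕ} {n0 n n' : ℤ} (h0 : (q : ℤ) ∣ n0 ^ 2 + D) (h1 : (q : ℤ) ∣ n ^ 2 + D)
    (h2 : (q : ℤ) ∣ n' ^ 2 + D) (hg : Int.gcd (n - n0) q = Int.gcd (n' - n0) q) :
    (q : ℤ) ∣ 2 * D * (n - n') := by
  set δ : ℤ := ((Int.gcd (n - n0) q : ℕ) : ℤ) with hδ
  have hd1 : δ ∣ n - n0 := Int.gcd_dvd_left ..
  have hd2 : δ ∣ n' - n0 := by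
    rw [hδ, hg]; exact Int.gcd_dvd_left ..
  have key : ∀ z : ℤ, (q : ℤ) ∣ z ^ 2 + D → δ = ((Int.gcd (z - n0) q : ℕ) : ℤ) →
      (q : ℤ) ∣ δ * (z + n0) := by
    intro z hz hzδ
    have hb := Int.gcd_eq_gcd_ab (z - n0) q
    rw [← hzδ] at hb
    obtain ⟨k, hk⟩ := hz
    obtain ⟨l, hl⟩ := h0
    refine ⟨(Int.gcdA (z - n0) q) * (k - l) + Int.gcdB (z - n0) q * (z + n0), ?_⟩
    rw [hb]
    linear_combination (Int.gcdA (z - n0) q) * (hk - hl)
  have e1 := key n h1 rfl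
  have e2 := key n' h2 (by rw [hδ, hg])
  obtain ⟨u, hu⟩ := hd1
  obtain ⟨u', hu'⟩ := hd2
  have hw : n - n' = δ * (u - u') := by linear_combination hu - hu'
  have e3 : (q : ℤ) ∣ δ * (n - n') := by
    have := dvd_sub e1 e2
    have e : δ * (n + n0) - δ * (n' + n0) = δ * (n - n') := by ring
    rwa [e] at this
  have e4 : (q : ℤ) ∣ (n - n') * (n + n0) := by
    rw [hw]
    have := e1.mul_left (u - u')
    have e : (u - u') * (δ * (n + n0)) = δ * (u - u') * (n + n0) := by ring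
    rwa [e] at this
  have e5 : (q : ℤ) ∣ (n - n') * (n - n0) := by
    rw [hu]
    have := e3.mul_left u
    have e : u * (δ * (n - n')) = (n - n') * (δ * u) := by ring
    rwa [e] at this
  have e6 : (q : ℤ) ∣ 2 * n0 * (n - n') := by
    have := dvd_sub e4 e5
    have e : (n - n') * (n + n0) - (n - n') * (n - n0) = 2 * n0 * (n - n') := by ring
    rwa [e] at this
  obtain ⟨k, hk⟩ := e6
  obtain ⟨l, hl⟩ := h0
  refine ⟨-n0 * k + l * (2 * (n - n')), ?_⟩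
  linear_combination (-n0) * hk + (2 * (n - n')) * hl

theorem card_DQ (D q N : ℕ) (hD : 0 < D) (hq : 0 < q) :
    (DQ D q N).card ≤ q.divisors.card * (2 * D * N / q + 1) := by
  classical
  rcases (DQ D q N).eq_empty_or_nonempty with he | ⟨n0, hn0⟩
  · rw [he]; simp
  rw [mem_DQ] at hn0
  have h0 : (q : ℤ) ∣ (n0 : ℤ) ^ 2 + D := by exact_mod_cast hn0.2
  have hmaps : ∀ n ∈ DQ D q N, Int.gcd ((n : ℤ) - n0) q ∈ q.divisors := by
    intro n _
    rw [Nat.mem_divisors]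
    refine ⟨?_, hq.ne'⟩
    have : ((Int.gcd ((n : ℤ) - n0) q : ℕ) : ℤ) ∣ (q : ℤ) := Int.gcd_dvd_right ..
    exact_mod_cast this
  rw [card_eq_sum_card_fiberwise hmaps]
  have hfib : ∀ δ ∈ q.divisors, ((DQ D q N).filter fun n : ℕ => Int.gcd ((n : ℤ) - n0) q = δ).card ≤
      2 * D * N / q + 1 := by
    intro δ _
    calc ((DQ D q N).filter fun n : ℕ => Int.gcd ((n : ℤ) - n0) q = δ).card
        ≤ (range (2 * D * N / q + 1)).card := by
          apply card_le_card_of_injOn (fun n => 2 * D * n / q)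
          · intro n hn
            rw [Finset.mem_coe, mem_filter, mem_DQ] at hn
            rw [Finset.mem_coe, mem_range]
            apply Nat.lt_succ_of_le
            exact Nat.div_le_div_right (Nat.mul_le_mul_left _ hn.1.1)
          · intro n hn n' hn' heq
            rw [Finset.mem_coe, mem_filter, mem_DQ] at hn hn'
            have heq' : 2 * D * n / q = 2 * D * n' / q := heq
            have hdvd := fibre_dvd (D := D) (q := q) (n0 := n0) (n := n) (n' := n') h0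
              (by exact_mod_cast hn.1.2) (by exact_mod_cast hn'.1.2) (hn.2.trans hn'.2.symm)
            have a1 := Nat.div_add_mod (2 * D * n) q
            have a2 := Nat.div_add_mod (2 * D * n') q
            have a3 := Nat.mod_lt (2 * D * n) hq
            have a4 := Nat.mod_lt (2 * D * n') hq
            rw [heq'] at a1
            have e0 : 2 * (D : ℤ) * ((n : ℤ) - n') = ((2 * D * n : ℕ) : ℤ) - ((2 * D * n' : ℕ) : ℤ) := by
              push_cast; ring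
            have hlt : |2 * (D : ℤ) * ((n : ℤ) - n')| < q := by
              rw [e0]
              generalize 2 * D * n % q = u at a1 a3
              generalize 2 * D * n' % q = v at a2 a4
              generalize q * (2 * D * n' / q) = w at a1 a2
              generalize 2 * D * n = x at a1 ⊢
              generalize 2 * D * n' = y at a2 ⊢
              rw [abs_lt]
              constructor <;> omega
            have h3 := Int.eq_zero_of_abs_lt_dvd hdvd hlt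
            have h4 : (2 * (D : ℤ)) ≠ 0 := by positivity
            have h5 := (mul_eq_zero.1 h3).resolve_left h4
            omega
      _ = 2 * D * N / q + 1 := card_range _
  calc ∑ δ ∈ q.divisors, ((DQ D q N).filter fun n : ℕ => Int.gcd ((n : ℤ) - n0) q = δ).card
      ≤ ∑ δ ∈ q.divisors, (2 * D * N / q + 1) := sum_le_sum hfib
    _ = q.divisors.card * (2 * D * N / q + 1) := by rw [sum_const, smul_eq_mul]

/-- growth of the solutions of `n ^ 2 + D = m j ^ 2` -/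
theorem growth {D m n n' j j' : ℕ} (hD : 0 < D) (h : n ^ 2 + D = m * j ^ 2)
    (h' : n' ^ 2 + D = m * j' ^ 2) (hlt : n < n') : 2 * (n * n') + D * n ^ 2 ≤ D * n' ^ 2 := by
  have hm : 1 ≤ m := by
    rcases Nat.eq_zero_or_pos m with hm | hm
    · rw [hm, zero_mul] at h; omega
    · exact hm
  have hn2 : n ^ 2 < n' ^ 2 := Nat.pow_lt_pow_left hlt two_ne_zero
  have hj : j < j' := by
    by_contra hge
    push Not at hge
    have h1 : m * j' ^ 2 ≤ m * j ^ 2 := Nat.mul_le_mul_left _ (Nat.pow_le_pow_left hge 2)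
    omega
  have hj2 : j ^ 2 < j' ^ 2 := Nat.pow_lt_pow_left hj two_ne_zero
  -- cross relation
  have hrel : j ^ 2 * (n' ^ 2 + D) = j' ^ 2 * (n ^ 2 + D) := by rw [h, h']; ring
  have hu : j' * n < j * n' := by
    by_contra hge
    push Not at hge
    have h1 : (j * n') ^ 2 ≤ (j' * n) ^ 2 := Nat.pow_le_pow_left hge 2
    have h3 : j ^ 2 * (n' ^ 2 + D) = (j * n') ^ 2 + D * j ^ 2 := by ring
    have h4 : j' ^ 2 * (n ^ 2 + D) = (j' * n) ^ 2 + D * j' ^ 2 := by ring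
    have h5 : D * j ^ 2 < D * j' ^ 2 := Nat.mul_lt_mul_of_pos_left hj2 hD
    omega
  have hsum : j * n' + j' * n + D * j ^ 2 ≤ D * j' ^ 2 := by
    obtain ⟨u, hu'⟩ := Nat.exists_eq_add_of_lt hu
    have h3 : j ^ 2 * (n' ^ 2 + D) = (j * n') ^ 2 + D * j ^ 2 := by ring
    have h4 : j' ^ 2 * (n ^ 2 + D) = (j' * n) ^ 2 + D * j' ^ 2 := by ring
    rw [h3, h4] at hrel
    have h5 : (j * n') ^ 2 = (j' * n) ^ 2 + (u + 1) * (j * n' + j' * n) := by
      rw [hu']; ring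
    have h6 : j * n' + j' * n ≤ (u + 1) * (j * n' + j' * n) := Nat.le_mul_of_pos_left _ (by omega)
    omega
  have hmj : n ≤ m * j := by
    by_contra hge
    push Not at hge
    have h1 : (m * j) ^ 2 < n ^ 2 := Nat.pow_lt_pow_left hge two_ne_zero
    have h2 : m * j ^ 2 ≤ m * (m * j ^ 2) := Nat.le_mul_of_pos_left _ hm
    have h3 : (m * j) ^ 2 = m * (m * j ^ 2) := by ring
    omega
  have hmj' : n' ≤ m * j' := by
    by_contra hge
    push Not at hge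
    have h1 : (m * j') ^ 2 < n' ^ 2 := Nat.pow_lt_pow_left hge two_ne_zero
    have h2 : m * j' ^ 2 ≤ m * (m * j' ^ 2) := Nat.le_mul_of_pos_left _ hm
    have h3 : (m * j') ^ 2 = m * (m * j' ^ 2) := by ring
    omega
  have h1 : m * (j * n' + j' * n + D * j ^ 2) ≤ m * (D * j' ^ 2) := Nat.mul_le_mul_left _ hsum
  have h2 : m * (j * n' + j' * n + D * j ^ 2) = (m * j) * n' + (m * j') * n + D * (m * j ^ 2) := by
    ring
  have h3 : m * (D * j' ^ 2) = D * (m * j' ^ 2) := by ring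
  rw [h2, h3, ← h, ← h'] at h1
  have h4 : n * n' ≤ (m * j) * n' := Nat.mul_le_mul_right _ hmj
  have h5 : n' * n ≤ (m * j') * n := Nat.mul_le_mul_right _ hmj'
  have h6 : D * (n ^ 2 + D) = D * n ^ 2 + D * D := by ring
  have h7 : D * (n' ^ 2 + D) = D * n' ^ 2 + D * D := by ring
  have h8 : n' * n = n * n' := mul_comm _ _
  omega

/-- solutions of `n ^ 2 + D = m j ^ 2` up to `N` -/
noncomputable def DM (D m N : ℕ) : Finset ℕ :=
  letI := Classical.decPred fun n : ℕ => ∃ j, n ^ 2 + D = m * j ^ 2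
  (Icc 1 N).filter fun n => ∃ j, n ^ 2 + D = m * j ^ 2

theorem mem_DM {D m N n : ℕ} : n ∈ DM D m N ↔ (1 ≤ n ∧ n ≤ N) ∧ ∃ j, n ^ 2 + D = m * j ^ 2 := by
  classical
  unfold DM
  rw [mem_filter, mem_Icc]

theorem card_DM (D m N : ℕ) (hD : 0 < D) : (DM D m N).card ≤ (Nat.log 2 N + 1) * (4 * D) := by
  classical
  have hcard : ((range (Nat.log 2 N + 1)) ×ˢ (range (4 * D))).card =
      (Nat.log 2 N + 1) * (4 * D) := by
    rw [card_product, card_range, card_range]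
  rw [← hcard]
  apply card_le_card_of_injOn (fun n => (Nat.log 2 n, 2 * D * n / 2 ^ (Nat.log 2 n)))
  · intro n hn
    rw [Finset.mem_coe, mem_DM] at hn
    rw [Finset.mem_coe, mem_product, mem_range, mem_range]
    have hlog : Nat.log 2 n ≤ Nat.log 2 N := Nat.log_mono_right hn.1.2
    refine ⟨Nat.lt_succ_of_le hlog, ?_⟩
    show 2 * D * n / 2 ^ (Nat.log 2 n) < 4 * D
    rw [Nat.div_lt_iff_lt_mul (by positivity)]
    have h1 : n < 2 ^ (Nat.log 2 n + 1) := Nat.lt_pow_succ_log_self (by norm_num) n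
    have h2 : 2 * D * n < 2 * D * 2 ^ (Nat.log 2 n + 1) :=
      Nat.mul_lt_mul_of_pos_left h1 (by omega)
    have h3 : 2 * D * 2 ^ (Nat.log 2 n + 1) = 4 * D * 2 ^ (Nat.log 2 n) := by ring
    omega
  · have key : ∀ n n' : ℕ, n ∈ DM D m N → n' ∈ DM D m N → Nat.log 2 n = Nat.log 2 n' → n < n' →
        2 * D * n / 2 ^ (Nat.log 2 n) < 2 * D * n' / 2 ^ (Nat.log 2 n') := by
      intro n n' hn hn' heq hlt
      rw [mem_DM] at hn hn'
      obtain ⟨⟨a1, _⟩, j, hj⟩ := hn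
      obtain ⟨⟨b1, _⟩, j', hj'⟩ := hn'
      have hg := growth hD hj hj' hlt
      rw [heq]
      set P := 2 ^ (Nat.log 2 n') with hP
      have hP0 : 0 < P := by positivity
      have h1 : P ≤ n := by
        rw [hP, ← heq]
        exact Nat.pow_log_le_self 2 (by omega)
      have h2 : n' < 2 * P := by
        have := Nat.lt_pow_succ_log_self (b := 2) (by norm_num) n'
        rw [pow_succ] at this
        omega
      -- `P ≤ 2 D (n' - n)`
      have h3 : P + 2 * D * n ≤ 2 * D * n' := by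
        obtain ⟨k, hk⟩ := Nat.exists_eq_add_of_lt hlt
        -- n' = n + k + 1
        by_contra hcon
        push Not at hcon
        have h4 : 2 * D * (k + 1) < P := by
          have : 2 * D * n' = 2 * D * n + 2 * D * (k + 1) := by rw [hk]; ring
          omega
        have h5 : 2 * D * (k + 1) < n := by omega
        -- growth: 2 n n' ≤ D (k+1) (n + n')
        have h6 : D * n' ^ 2 = D * n ^ 2 + D * (k + 1) * (n + n') := by rw [hk]; ring
        have h7 : 2 * (n * n') ≤ D * (k + 1) * (n + n') := by omega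
        have h8 : 2 * (D * (k + 1) * (n + n')) < 2 * (n * n') + 2 * (n * n') := by
          have h9 : 2 * (D * (k + 1) * (n + n')) = 2 * D * (k + 1) * (n + n') := by ring
          have h10 : 2 * D * (k + 1) * (n + n') < n * (n + n') :=
            Nat.mul_lt_mul_of_pos_right h5 (by omega)
          have h11 : n * (n + n') ≤ n * (n' + n') := Nat.mul_le_mul_left _ (by omega)
          have h12 : n * (n' + n') = 2 * (n * n') := by ring
          omega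
        omega
      have h4 : 2 * D * n / P + 1 ≤ 2 * D * n' / P := by
        rw [Nat.le_div_iff_mul_le hP0]
        have h5 := Nat.div_mul_le_self (2 * D * n) P
        have h6 : (2 * D * n / P + 1) * P = 2 * D * n / P * P + P := by ring
        omega
      omega
    intro n hn n' hn' heq
    rw [Finset.mem_coe] at hn hn'
    rw [Prod.mk.injEq] at heq
    obtain ⟨e1, e2⟩ := heq
    rcases lt_trichotomy n n' with h | h | h
    · have := key n n' hn hn' e1 h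
      omega
    · exact h
    · have := key n' n hn' hn e1.symm h
      omega

/-- integers `n ≤ N` with `n^2+D` divisible by the square of a prime `> J` -/
noncomputable def PX (D J N : ℕ) : Finset ℕ :=
  letI := Classical.decPred fun n : ℕ => ∃ l, l.Prime ∧ J < l ∧ l ^ 2 ∣ n ^ 2 + D
  (Icc 1 N).filter fun n => ∃ l, l.Prime ∧ J < l ∧ l ^ 2 ∣ n ^ 2 + D

theorem mem_PX {D J N n : ℕ} :
    n ∈ PX D J N ↔ (1 ≤ n ∧ n ≤ N) ∧ ∃ l, l.Prime ∧ J < l ∧ l ^ 2 ∣ n ^ 2 + D := by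
  classical
  unfold PX
  rw [mem_filter, mem_Icc]

theorem card_PX (D J N Y : ℕ) (hD : 0 < D) (hJ : 1 ≤ J) :
    ((PX D J N).card : ℝ) ≤ 3 * (2 * D * N / J + Y) +
      ((N ^ 2 + D) / (Y + 1) ^ 2 + 1 : ℕ) * ((Nat.log 2 N + 1) * (4 * D)) := by
  classical
  have hsub : PX D J N ⊆ (((Ioc J Y).filter Nat.Prime).biUnion fun j => DQ D (j ^ 2) N) ∪
      ((range ((N ^ 2 + D) / (Y + 1) ^ 2 + 1)).biUnion fun m => DM D m N) := by
    intro n hn
    rw [mem_PX] at hn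
    obtain ⟨⟨h1, h2⟩, j, hjp, hj1, hj2⟩ := hn
    rw [mem_union]
    by_cases hjY : j ≤ Y
    · left
      rw [mem_biUnion]
      exact ⟨j, mem_filter.2 ⟨mem_Ioc.2 ⟨hj1, hjY⟩, hjp⟩, mem_DQ.2 ⟨h2, hj2⟩⟩
    · right
      push Not at hjY
      obtain ⟨m, hm⟩ := hj2
      rw [mem_biUnion]
      refine ⟨m, ?_, mem_DM.2 ⟨⟨h1, h2⟩, j, by rw [hm]; ring⟩⟩
      rw [mem_range]
      apply Nat.lt_succ_of_le
      rw [Nat.le_div_iff_mul_le (by positivity)]
      calc m * (Y + 1) ^ 2 ≤ m * j ^ 2 := Nat.mul_le_mul_left _ (Nat.pow_le_pow_left hjY 2)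
        _ = n ^ 2 + D := by rw [hm]; ring
        _ ≤ N ^ 2 + D := by
            have := Nat.pow_le_pow_left h2 2
            omega
  have hDQ : ∀ j ∈ (Ioc J Y).filter Nat.Prime,
      ((DQ D (j ^ 2) N).card : ℝ) ≤ 3 * (2 * D * N * (1 / (j : ℝ) ^ 2) + 1) := by
    intro j hj
    rw [mem_filter, mem_Ioc] at hj
    obtain ⟨hj, hjp⟩ := hj
    have hj0 : 0 < j := by omega
    have hj0' : (0 : ℝ) < j := by exact_mod_cast hj0
    have hτ : (j ^ 2).divisors.card = 3 := by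
      rw [Nat.divisors_prime_pow hjp, card_map, card_range]
    have h1 := card_DQ D (j ^ 2) N hD (by positivity)
    rw [hτ] at h1
    have h3 : ((DQ D (j ^ 2) N).card : ℝ) ≤ 3 * (((2 * D * N / j ^ 2 : ℕ) : ℝ) + 1) := by
      exact_mod_cast h1
    refine h3.trans ?_
    apply mul_le_mul_of_nonneg_left _ (by norm_num)
    have h4 : ((2 * D * N / j ^ 2 : ℕ) : ℝ) ≤ ((2 * D * N : ℕ) : ℝ) / ((j ^ 2 : ℕ) : ℝ) :=
      Nat.cast_div_le
    push_cast at h4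
    have e : (2 : ℝ) * D * N * (1 / (j : ℝ) ^ 2) = 2 * D * N / (j : ℝ) ^ 2 := by ring
    rw [e]
    linarith
  have hc1 : (((((Ioc J Y).filter Nat.Prime).biUnion fun j => DQ D (j ^ 2) N).card : ℕ) : ℝ) ≤
      3 * (2 * D * N / J + Y) := by
    calc (((((Ioc J Y).filter Nat.Prime).biUnion fun j => DQ D (j ^ 2) N).card : ℕ) : ℝ)
        ≤ ((∑ j ∈ (Ioc J Y).filter Nat.Prime, (DQ D (j ^ 2) N).card : ℕ) : ℝ) := by
          exact_mod_cast card_biUnion_le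
      _ = ∑ j ∈ (Ioc J Y).filter Nat.Prime, ((DQ D (j ^ 2) N).card : ℝ) := by push_cast; rfl
      _ ≤ ∑ j ∈ (Ioc J Y).filter Nat.Prime, 3 * (2 * D * N * (1 / (j : ℝ) ^ 2) + 1) :=
          sum_le_sum hDQ
      _ ≤ ∑ j ∈ Ioc J Y, 3 * (2 * D * N * (1 / (j : ℝ) ^ 2) + 1) :=
          sum_le_sum_of_subset_of_nonneg (filter_subset _ _) fun _ _ _ => by positivity
      _ = 3 * (2 * D * N * (∑ j ∈ Ioc J Y, 1 / (j : ℝ) ^ 2) + (Ioc J Y).card) := by
          rw [← mul_sum, sum_add_distrib, ← mul_sum]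
          simp
      _ ≤ 3 * (2 * D * N / J + Y) := by
          apply mul_le_mul_of_nonneg_left _ (by norm_num)
          have h1 := sum_inv_sq J Y hJ
          have h2 : ((Ioc J Y).card : ℝ) ≤ Y := by
            rw [Nat.card_Ioc]
            exact_mod_cast Nat.sub_le _ _
          have h3 : (2 : ℝ) * D * N * (∑ j ∈ Ioc J Y, 1 / (j : ℝ) ^ 2) ≤ 2 * D * N * (1 / J) :=
            mul_le_mul_of_nonneg_left h1 (by positivity)
          have e : (2 : ℝ) * D * N * (1 / J) = 2 * D * N / J := by ring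
          linarith
  have hc2 : ((range ((N ^ 2 + D) / (Y + 1) ^ 2 + 1)).biUnion fun m => DM D m N).card ≤
      ((N ^ 2 + D) / (Y + 1) ^ 2 + 1) * ((Nat.log 2 N + 1) * (4 * D)) := by
    refine card_biUnion_le.trans ?_
    calc ∑ m ∈ range ((N ^ 2 + D) / (Y + 1) ^ 2 + 1), (DM D m N).card
        ≤ ∑ m ∈ range ((N ^ 2 + D) / (Y + 1) ^ 2 + 1), ((Nat.log 2 N + 1) * (4 * D)) :=
          sum_le_sum fun m _ => card_DM D m N hD
      _ = _ := by rw [sum_const, smul_eq_mul, card_range]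
  have hc2' : ((((range ((N ^ 2 + D) / (Y + 1) ^ 2 + 1)).biUnion fun m => DM D m N).card : ℕ) : ℝ) ≤
      ((N ^ 2 + D) / (Y + 1) ^ 2 + 1 : ℕ) * ((Nat.log 2 N + 1) * (4 * D)) := by exact_mod_cast hc2
  calc ((PX D J N).card : ℝ) ≤
      ((((((Ioc J Y).filter Nat.Prime).biUnion fun j => DQ D (j ^ 2) N) ∪
      ((range ((N ^ 2 + D) / (Y + 1) ^ 2 + 1)).biUnion fun m => DM D m N)).card : ℕ) : ℝ) := by
        exact_mod_cast card_le_card hsub
    _ ≤ (((((Ioc J Y).filter Nat.Prime).biUnion fun j => DQ D (j ^ 2) N).card +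
      ((range ((N ^ 2 + D) / (Y + 1) ^ 2 + 1)).biUnion fun m => DM D m N).card : ℕ) : ℝ) := by
        exact_mod_cast card_union_le _ _
    _ ≤ _ := by push_cast at hc1 hc2' ⊢; linarith

/-- second moment of the divisor function of `n^2+D` -/
theorem tau_sq_moment (D N : ℕ) (hD : 0 < D) :
    ∑ n ∈ Icc 1 N, (((n ^ 2 + D).divisors.card : ℕ) : ℝ) ^ 2 ≤
      12 * D * (N + D) * (1 + Real.log (N + D : ℕ)) ^ 32 := by
  classical
  have hex : ∀ n : ℕ, ∃ m, m ∣ n ^ 2 + D ∧ m * m ≤ n ^ 2 + D ∧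
      tau (n ^ 2 + D) ≤ 2 * tau m ^ 2 := fun n => exists_small_divisor _ (by omega)
  choose m hm1 hm2 hm3 using hex
  have hm : ∀ n ∈ Icc 1 N, m n ∈ Icc 1 (N + D) := by
    intro n hn
    rw [mem_Icc] at hn ⊢
    refine ⟨Nat.pos_of_dvd_of_pos (hm1 n) (by omega), ?_⟩
    by_contra hlt
    push Not at hlt
    have h1 := hm2 n
    have h2 : n + D ≤ m n := by omega
    have h3 := Nat.mul_le_mul h2 h2
    nlinarith
  have h1 : ∀ n ∈ Icc 1 N, (((n ^ 2 + D).divisors.card : ℕ) : ℝ) ^ 2 ≤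
      ∑ q ∈ Icc 1 (N + D), if q ∣ n ^ 2 + D then 4 * (tau q : ℝ) ^ 4 else 0 := by
    intro n hn
    have h2 : (((n ^ 2 + D).divisors.card : ℕ) : ℝ) ^ 2 ≤ 4 * (tau (m n) : ℝ) ^ 4 := by
      have h3 : (((n ^ 2 + D).divisors.card : ℕ) : ℝ) ≤ 2 * (tau (m n) : ℝ) ^ 2 := by
        exact_mod_cast hm3 n
      calc (((n ^ 2 + D).divisors.card : ℕ) : ℝ) ^ 2 ≤ (2 * (tau (m n) : ℝ) ^ 2) ^ 2 :=
            pow_le_pow_left₀ (Nat.cast_nonneg _) h3 2
        _ = 4 * (tau (m n) : ℝ) ^ 4 := by ring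
    refine h2.trans ?_
    have h5 : ∀ q ∈ Icc 1 (N + D), (0 : ℝ) ≤ if q ∣ n ^ 2 + D then 4 * (tau q : ℝ) ^ 4 else 0 := by
      intro q _
      split_ifs <;> positivity
    have h4 := single_le_sum h5 (hm n hn)
    rwa [if_pos (hm1 n)] at h4
  have s1 := sum_le_sum h1
  rw [sum_comm] at s1
  refine s1.trans ?_
  have s2 : ∀ q ∈ Icc 1 (N + D), (∑ n ∈ Icc 1 N, if q ∣ n ^ 2 + D then 4 * (tau q : ℝ) ^ 4 else 0) ≤
      12 * D * (N + D) * ((tau q : ℝ) ^ 5 / q) := by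
    intro q hq
    rw [mem_Icc] at hq
    rw [← sum_filter, sum_const, nsmul_eq_mul]
    have h2 : (((Icc 1 N).filter fun n => q ∣ n ^ 2 + D).card : ℝ) ≤
        (tau q : ℝ) * (3 * D * (N + D) / q) := by
      have h3 : ((Icc 1 N).filter fun n => q ∣ n ^ 2 + D).card ≤ (DQ D q N).card := by
        refine card_le_card fun n hn => ?_
        rw [mem_filter, mem_Icc] at hn
        exact mem_DQ.2 ⟨hn.1.2, hn.2⟩
      have h4 := h3.trans (card_DQ D q N hD (by omega))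
      have h5 : (((Icc 1 N).filter fun n => q ∣ n ^ 2 + D).card : ℝ) ≤
          (tau q : ℝ) * (((2 * D * N / q : ℕ) : ℝ) + 1) := by
        unfold tau
        exact_mod_cast h4
      refine h5.trans (mul_le_mul_of_nonneg_left ?_ (Nat.cast_nonneg _))
      have h6 : ((2 * D * N / q : ℕ) : ℝ) ≤ ((2 * D * N : ℕ) : ℝ) / (q : ℝ) := Nat.cast_div_le
      have hq0 : (0 : ℝ) < q := by exact_mod_cast hq.1
      have hDr : (1 : ℝ) ≤ D := by exact_mod_cast hD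
      have h7 : (1 : ℝ) ≤ D * (N + D) / q := by
        rw [le_div_iff₀ hq0, one_mul]
        have h8 : (q : ℝ) ≤ N + D := by exact_mod_cast hq.2
        nlinarith
      push_cast at h6
      have h9 : (2 : ℝ) * D * N / q ≤ 2 * D * (N + D) / q := by
        apply div_le_div_of_nonneg_right _ hq0.le
        nlinarith
      have e : (3 : ℝ) * D * (N + D) / q = 2 * D * (N + D) / q + D * (N + D) / q := by ring
      rw [e]
      linarith
    have h8 : (((Icc 1 N).filter fun n => q ∣ n ^ 2 + D).card : ℝ) * (4 * (tau q : ℝ) ^ 4)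
        ≤ ((tau q : ℝ) * (3 * D * (N + D) / q)) * (4 * (tau q : ℝ) ^ 4) :=
      mul_le_mul_of_nonneg_right h2 (by positivity)
    have h9 : ((tau q : ℝ) * (3 * D * (N + D) / q)) * (4 * (tau q : ℝ) ^ 4) =
        12 * D * (N + D) * ((tau q : ℝ) ^ 5 / q) := by ring
    exact h8.trans h9.le
  refine (sum_le_sum s2).trans ?_
  rw [← mul_sum]
  have h := tsm_le 5 (N + D)
  have h32 : (2 : ℕ) ^ 5 = 32 := by norm_num
  rw [h32] at h
  exact mul_le_mul_of_nonneg_left h (by positivity)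

/-- Cauchy-Schwarz -/
theorem large_sq (D J N : ℕ) (hD : 0 < D) :
    (∑ k ∈ PX D J N, (((k ^ 2 + D).divisors.card : ℕ) : ℝ)) ^ 2 ≤
      (PX D J N).card * (12 * D * (N + D) * (1 + Real.log (N + D : ℕ)) ^ 32) := by
  classical
  refine sq_sum_le_card_mul_sum_sq.trans ?_
  refine mul_le_mul_of_nonneg_left ?_ (Nat.cast_nonneg _)
  refine le_trans ?_ (tau_sq_moment D N hD)
  refine sum_le_sum_of_subset_of_nonneg (fun k hk => ?_) fun _ _ _ => by positivity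
  rw [mem_PX] at hk
  exact mem_Icc.2 hk.1

theorem ev_aux (X ℓ D : ℝ) (hX1 : 1 ≤ X) (hl : 1 ≤ ℓ) (hD : 1 ≤ D)
    (h35'' : 32 * D * (5 + D) * ℓ ^ 35 ≤ X ^ (1 / 4 : ℝ)) :
    3 * X ^ (3 / 4 : ℝ) + ((5 + D) * X ^ (1 / 2 : ℝ)) * (16 * D * ℓ) ≤ X / ℓ ^ 34 := by
  have hX0 : (0 : ℝ) < X := by linarith
  have hℓ0 : 0 < ℓ := by linarith
  have e34 : X ^ (1 / 2 : ℝ) * X ^ (1 / 4 : ℝ) = X ^ (3 / 4 : ℝ) := by
    rw [← Real.rpow_add hX0]
    norm_num
  have e1 : X ^ (3 / 4 : ℝ) * X ^ (1 / 4 : ℝ) = X := by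
    rw [← Real.rpow_add hX0]
    norm_num
  have p14 : 1 ≤ X ^ (1 / 4 : ℝ) := Real.one_le_rpow hX1 (by norm_num)
  rw [le_div_iff₀ (by positivity)]
  have hℓ35 : ℓ ^ 34 ≤ ℓ ^ 35 := pow_le_pow_right₀ hl (by norm_num)
  have hℓ35p : 0 < ℓ ^ 35 := by positivity
  have h6 : 6 * ℓ ^ 35 ≤ X ^ (1 / 4 : ℝ) := by
    refine le_trans ?_ h35''
    apply mul_le_mul_of_nonneg_right _ hℓ35p.le
    nlinarith
  have a1 : X ^ (3 / 4 : ℝ) * ℓ ^ 34 * 6 ≤ X := by
    calc X ^ (3 / 4 : ℝ) * ℓ ^ 34 * 6 = X ^ (3 / 4 : ℝ) * (6 * ℓ ^ 34) := by ring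
      _ ≤ X ^ (3 / 4 : ℝ) * X ^ (1 / 4 : ℝ) :=
          mul_le_mul_of_nonneg_left (by linarith) (by positivity)
      _ = X := e1
  have a2 : ((5 + D) * X ^ (1 / 2 : ℝ)) * (16 * D * ℓ) * ℓ ^ 34 * 2 ≤ X := by
    calc ((5 + D) * X ^ (1 / 2 : ℝ)) * (16 * D * ℓ) * ℓ ^ 34 * 2
        = X ^ (1 / 2 : ℝ) * (32 * D * (5 + D) * ℓ ^ 35) := by ring
      _ ≤ X ^ (1 / 2 : ℝ) * X ^ (1 / 4 : ℝ) :=
          mul_le_mul_of_nonneg_left h35'' (by positivity)
      _ = X ^ (3 / 4 : ℝ) := e34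
      _ ≤ X ^ (3 / 4 : ℝ) * X ^ (1 / 4 : ℝ) :=
          le_mul_of_one_le_right (by positivity) p14
      _ = X := e1
  have e : (3 * X ^ (3 / 4 : ℝ) + ((5 + D) * X ^ (1 / 2 : ℝ)) * (16 * D * ℓ)) * ℓ ^ 34 =
      3 * (X ^ (3 / 4 : ℝ) * ℓ ^ 34) + ((5 + D) * X ^ (1 / 2 : ℝ)) * (16 * D * ℓ) * ℓ ^ 34 := by
    ring
  rw [e]
  linarith

/-- few `n ≤ 2 X` with `n^2+D` divisible by the square of a prime above `(log X)^34` -/
theorem card_PX_ev (D : ℕ) (hD : 0 < D) : ∀ᶠ X : ℝ in atTop,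
    ((PX D ⌊Real.log X ^ 34⌋₊ ⌊2 * X⌋₊).card : ℝ) ≤ (24 * D + 1) * (X / Real.log X ^ 34) := by
  have hDr : (1 : ℝ) ≤ D := by exact_mod_cast hD
  have h1 : ∀ᶠ X : ℝ in atTop, (1 : ℝ) ≤ Real.log X :=
    Real.tendsto_log_atTop.eventually_ge_atTop 1
  have hc0 : (0 : ℝ) < 1 / (32 * D * (5 + D)) := by positivity
  have h2 : ∀ᶠ X : ℝ in atTop, ‖Real.log X ^ (35 : ℝ)‖ ≤
      (1 / (32 * D * (5 + D))) * ‖X ^ (1 / 4 : ℝ)‖ :=
    (isLittleO_log_rpow_rpow_atTop (s := 1 / 4) (35 : ℝ) (by norm_num)).def hc0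
  filter_upwards [h1, h2, eventually_ge_atTop (16 : ℝ)] with X hl h35 hX
  have hX0 : (0 : ℝ) < X := by linarith
  have hX1 : (1 : ℝ) ≤ X := by linarith
  set ℓ := Real.log X with hℓ
  have hℓ0 : 0 < ℓ := by linarith
  have h35' : ℓ ^ 35 ≤ (1 / (32 * D * (5 + D))) * X ^ (1 / 4 : ℝ) := by
    have e : ℓ ^ (35 : ℝ) = ℓ ^ 35 := by
      rw [show (35 : ℝ) = ((35 : ℕ) : ℝ) by norm_num, Real.rpow_natCast]
    rw [e, Real.norm_of_nonneg (by positivity), Real.norm_of_nonneg (by positivity)] at h35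
    exact h35
  have h35'' : 32 * D * (5 + D) * ℓ ^ 35 ≤ X ^ (1 / 4 : ℝ) := by
    have h3 : (0 : ℝ) < 32 * D * (5 + D) := by positivity
    calc 32 * D * (5 + D) * ℓ ^ 35
        ≤ 32 * D * (5 + D) * ((1 / (32 * D * (5 + D))) * X ^ (1 / 4 : ℝ)) :=
          mul_le_mul_of_nonneg_left h35' h3.le
      _ = X ^ (1 / 4 : ℝ) := by field_simp
  have hL1 : 1 ≤ ℓ ^ 34 := one_le_pow₀ hl
  have hJ1 : 1 ≤ ⌊ℓ ^ 34⌋₊ := Nat.le_floor (by exact_mod_cast hL1)
  have hJ2 : ℓ ^ 34 / 2 ≤ (⌊ℓ ^ 34⌋₊ : ℝ) := by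
    have h3 := Nat.lt_floor_add_one (ℓ ^ 34)
    have h4 : (1 : ℝ) ≤ (⌊ℓ ^ 34⌋₊ : ℝ) := by exact_mod_cast hJ1
    linarith
  set Y := ⌊X ^ (3 / 4 : ℝ)⌋₊ with hY
  have hcard := card_PX D ⌊ℓ ^ 34⌋₊ ⌊2 * X⌋₊ Y hD hJ1
  refine hcard.trans ?_
  have hN : (⌊2 * X⌋₊ : ℝ) ≤ 2 * X := Nat.floor_le (by linarith)
  have hYle : (Y : ℝ) ≤ X ^ (3 / 4 : ℝ) := Nat.floor_le (by positivity)
  have hYge : X ^ (3 / 4 : ℝ) < (Y : ℝ) + 1 := Nat.lt_floor_add_one _
  have t1 : 2 * (D : ℝ) * (⌊2 * X⌋₊ : ℝ) / (⌊ℓ ^ 34⌋₊ : ℝ) ≤ 8 * D * (X / ℓ ^ 34) := by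
    have h4 : 2 * (D : ℝ) * (⌊2 * X⌋₊ : ℝ) ≤ 4 * D * X := by nlinarith
    have h5 : 2 * (D : ℝ) * (⌊2 * X⌋₊ : ℝ) / (⌊ℓ ^ 34⌋₊ : ℝ) ≤ 4 * D * X / (ℓ ^ 34 / 2) :=
      div_le_div₀ (by positivity) h4 (by positivity) hJ2
    have h6 : 4 * D * X / (ℓ ^ 34 / 2) = 8 * D * (X / ℓ ^ 34) := by field_simp; ring
    linarith
  have e32 : X ^ (3 / 4 : ℝ) * X ^ (3 / 4 : ℝ) = X * X ^ (1 / 2 : ℝ) := by
    rw [← Real.rpow_add hX0]
    nth_rewrite 2 [← Real.rpow_one X]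
    rw [← Real.rpow_add hX0]
    norm_num
  have e12 : X ^ (1 / 2 : ℝ) * X ^ (1 / 2 : ℝ) = X := by
    rw [← Real.rpow_add hX0]
    norm_num
  have e34 : X ^ (1 / 2 : ℝ) * X ^ (1 / 4 : ℝ) = X ^ (3 / 4 : ℝ) := by
    rw [← Real.rpow_add hX0]
    norm_num
  have e1 : X ^ (3 / 4 : ℝ) * X ^ (1 / 4 : ℝ) = X := by
    rw [← Real.rpow_add hX0]
    norm_num
  have p12 : 1 ≤ X ^ (1 / 2 : ℝ) := Real.one_le_rpow hX1 (by norm_num)
  have p14 : 1 ≤ X ^ (1 / 4 : ℝ) := Real.one_le_rpow hX1 (by norm_num)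
  have t2 : ((((⌊2 * X⌋₊ ^ 2 + D) / (Y + 1) ^ 2 + 1 : ℕ)) : ℝ) ≤ (5 + D) * X ^ (1 / 2 : ℝ) := by
    have h5 : (((⌊2 * X⌋₊ ^ 2 + D) / (Y + 1) ^ 2 : ℕ) : ℝ) ≤
        ((⌊2 * X⌋₊ ^ 2 + D : ℕ) : ℝ) / (((Y + 1) ^ 2 : ℕ) : ℝ) := Nat.cast_div_le
    have h6 : ((⌊2 * X⌋₊ ^ 2 + D : ℕ) : ℝ) / (((Y + 1) ^ 2 : ℕ) : ℝ) ≤
        (4 + D) * X ^ (1 / 2 : ℝ) := by
      push_cast
      rw [div_le_iff₀ (by positivity)]
      have h7 : X ^ (3 / 4 : ℝ) * X ^ (3 / 4 : ℝ) ≤ ((Y : ℝ) + 1) ^ 2 := by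
        rw [pow_two]
        exact mul_le_mul hYge.le hYge.le (by positivity) (by positivity)
      have h8 : (⌊2 * X⌋₊ : ℝ) ^ 2 + D ≤ (4 + D) * (X * X) := by
        have h9 : (⌊2 * X⌋₊ : ℝ) ^ 2 ≤ (2 * X) * (2 * X) := by
          rw [pow_two]
          exact mul_le_mul hN hN (Nat.cast_nonneg _) (by linarith)
        have h10 : (1 : ℝ) ≤ X * X := by nlinarith
        nlinarith
      calc (⌊2 * X⌋₊ : ℝ) ^ 2 + D ≤ (4 + D) * (X * X) := h8
        _ = (4 + D) * X ^ (1 / 2 : ℝ) * (X ^ (3 / 4 : ℝ) * X ^ (3 / 4 : ℝ)) := by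
            rw [e32]
            calc (4 + D) * (X * X) = (4 + D) * (X * (X ^ (1 / 2 : ℝ) * X ^ (1 / 2 : ℝ))) := by
                  rw [e12]
              _ = _ := by ring
        _ ≤ (4 + D) * X ^ (1 / 2 : ℝ) * ((Y : ℝ) + 1) ^ 2 :=
            mul_le_mul_of_nonneg_left h7 (by positivity)
    push_cast at h5 h6 ⊢
    linarith
  have t3 : (((Nat.log 2 ⌊2 * X⌋₊ : ℕ) : ℝ) + 1) * (4 * D) ≤ 16 * D * ℓ := by
    have hN1 : 1 ≤ ⌊2 * X⌋₊ := Nat.le_floor (by push_cast; linarith)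
    have h5 : (2 : ℝ) ^ (Nat.log 2 ⌊2 * X⌋₊) ≤ 2 * X := by
      have := Nat.pow_log_le_self 2 (x := ⌊2 * X⌋₊) (by omega)
      have h6 : ((2 ^ (Nat.log 2 ⌊2 * X⌋₊) : ℕ) : ℝ) ≤ (⌊2 * X⌋₊ : ℝ) := by exact_mod_cast this
      push_cast at h6
      linarith
    have h6 := Real.log_le_log (by positivity) h5
    rw [Real.log_pow, Real.log_mul (by norm_num) hX0.ne'] at h6
    have h7 := Real.log_two_gt_d9
    have h7' := Real.log_two_lt_d9
    have h8 : ((Nat.log 2 ⌊2 * X⌋₊ : ℕ) : ℝ) ≤ 3 * ℓ := by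
      have h9 : 0 ≤ ((Nat.log 2 ⌊2 * X⌋₊ : ℕ) : ℝ) := Nat.cast_nonneg _
      nlinarith
    nlinarith
  have t4 : ((((⌊2 * X⌋₊ ^ 2 + D) / (Y + 1) ^ 2 + 1 : ℕ)) : ℝ) *
      ((((Nat.log 2 ⌊2 * X⌋₊ : ℕ) : ℝ) + 1) * (4 * D)) ≤
      ((5 + D) * X ^ (1 / 2 : ℝ)) * (16 * D * ℓ) :=
    mul_le_mul t2 t3 (by positivity) (by positivity)
  have t5 := ev_aux X ℓ D hX1 hl hDr h35''
  have t7 : (24 * (D : ℝ) + 1) * (X / ℓ ^ 34) = 3 * (8 * D * (X / ℓ ^ 34)) + X / ℓ ^ 34 := by ring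
  rw [t7]
  linarith

end Pool.Agent.W898.GA
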