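import Pool.Agent.W78.GA.Basic
import Pool.Agent.W898.GA.Sq

/-!
Project GA (helper78), GA-22: few pairs of determinant one for which `n^2+tn+c` is divisible by the
square of a large prime.
-/

set_option autoImplicit false

namespace Pool.Agent.W898.GA

open Finset Filter
open Pool.Agent.W78.GA

variable {t c : ℤ}

/-- `4 c - t^2` as a natural number -/
def dd (t c : ℤ) : ℕ := (4 * c - t ^ 2).toNat

theorem dd_pos (hD : t ^ 2 < 4 * c) : 0 < dd t c := by
  unfold dd
  omega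

theorem dd_cast (hD : t ^ 2 < 4 * c) : (dd t c : ℤ) = 4 * c - t ^ 2 := by
  unfold dd
  omega

/-- `|2 n + t|`, `n = ip e.1 e.2` -/
def yy (e : Qd t c × Qd t c) : ℕ := (2 * ip e.1 e.2 + t).natAbs

theorem four_NN (hD : t ^ 2 < 4 * c) {e : Qd t c × Qd t c} (h : dt e.1 e.2 = 1) :
    4 * NN e = yy e ^ 2 + dd t c := by
  have h1 := NN_eq hD h
  have h2 : ((yy e ^ 2 + dd t c : ℕ) : ℤ) = (4 * NN e : ℕ) := by
    push_cast
    rw [dd_cast hD, h1]
    unfold yy
    rw [Int.natCast_natAbs, sq_abs]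
    ring
  exact_mod_cast h2.symm

/-- few pairs with the same `|2 ip + t|` -/
theorem fibre_card (hD : t ^ 2 < 4 * c) (hM : S_MULT t c) (k : ℕ) (T : Finset (Qd t c × Qd t c))
    (hT : ∀ e ∈ T, dt e.1 e.2 = 1 ∧ yy e = k) :
    T.card ≤ 12 * (k ^ 2 + dd t c).divisors.card := by
  classical
  have hne : k ^ 2 + dd t c ≠ 0 := by
    have := dd_pos hD
    omega
  -- the first norm is a divisor
  have hdiv : ∀ e ∈ T, nm e.1 ∈ (k ^ 2 + dd t c).divisors := by
    intro e he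
    rw [Nat.mem_divisors]
    refine ⟨?_, hne⟩
    obtain ⟨h1, h2⟩ := hT e he
    have h3 := four_NN hD h1
    rw [← h2, ← h3]
    unfold NN
    exact Dvd.intro (4 * nm e.2) (by ring)
  rw [card_eq_sum_card_fiberwise hdiv]
  have hfib : ∀ d ∈ (k ^ 2 + dd t c).divisors, (T.filter fun e => nm e.1 = d).card ≤ 12 := by
    intro d _
    have hsub : (T.filter fun e => nm e.1 = d) ⊆
        ((T.filter fun e => nm e.1 = d).filter fun e => 2 * ip e.1 e.2 + t = k) ∪
        ((T.filter fun e => nm e.1 = d).filter fun e => 2 * ip e.1 e.2 + t = -k) := by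
      intro e he
      rw [mem_union]
      have h2 := (hT e (mem_filter.1 he).1).2
      unfold yy at h2
      rcases Int.natAbs_eq (2 * ip e.1 e.2 + t) with h | h
      · left; exact mem_filter.2 ⟨he, by rw [h, h2]⟩
      · right; exact mem_filter.2 ⟨he, by rw [h, h2]⟩
    have key : ∀ s : ℤ, ((T.filter fun e => nm e.1 = d).filter
        fun e => 2 * ip e.1 e.2 + t = s).card ≤ 6 := by
      intro s
      rcases ((T.filter fun e => nm e.1 = d).filter
        fun e => 2 * ip e.1 e.2 + t = s).eq_empty_or_nonempty with he | ⟨e0, he0⟩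
      · rw [he]; simp
      · apply hM (ip e0.1 e0.2) d
        intro e he
        rw [mem_filter, mem_filter] at he he0
        refine ⟨(hT e he.1.1).1, ?_, he.1.2⟩
        have h1 := he.2
        have h2 := he0.2
        omega
    have h1 := (card_le_card hsub).trans (card_union_le _ _)
    have h2 := key k
    have h3 := key (-k)
    omega
  calc ∑ d ∈ (k ^ 2 + dd t c).divisors, (T.filter fun e => nm e.1 = d).card
      ≤ ∑ d ∈ (k ^ 2 + dd t c).divisors, 12 := sum_le_sum hfib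
    _ = 12 * (k ^ 2 + dd t c).divisors.card := by rw [sum_const, smul_eq_mul, mul_comm]

open scoped Classical in
/-- the combinatorial bound -/
theorem large_card (hD : t ^ 2 < 4 * c) (hM : S_MULT t c) (X : ℝ) (hX : 1 ≤ X) (L : ℝ)
    (hL : 1 ≤ L) (hL2 : (dd t c : ℝ) + 1 ≤ L) :
    (((dedge t c X).filter (fun e => ∃ l : ℕ, l.Prime ∧ L < (l : ℝ) ∧ l ^ 2 ∣ NN e)).card : ℝ) ≤
      12 * ∑ k ∈ PX (dd t c) ⌊L⌋₊ ⌊2 * X⌋₊, (((k ^ 2 + dd t c).divisors.card : ℕ) : ℝ) := by
  set T := (dedge t c X).filter (fun e => ∃ l : ℕ, l.Prime ∧ L < (l : ℝ) ∧ l ^ 2 ∣ NN e) with hT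
  have hdd := dd_pos hD
  have hmap : ∀ e ∈ T, yy e ∈ PX (dd t c) ⌊L⌋₊ ⌊2 * X⌋₊ := by
    intro e he
    rw [hT, mem_filter] at he
    obtain ⟨he, l, hlp, hlL, hld⟩ := he
    unfold dedge at he
    rw [mem_filter, mem_product, mem_pball hD, mem_pball hD] at he
    obtain ⟨⟨⟨_, h1⟩, ⟨_, h2⟩⟩, h3⟩ := he
    have h4 := four_NN hD h3
    have hld' : l ^ 2 ∣ yy e ^ 2 + dd t c := by
      rw [← h4]
      exact hld.mul_left 4
    rw [mem_PX]
    refine ⟨⟨?_, ?_⟩, l, hlp, ?_, hld'⟩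
    · by_contra h0
      have h0' : yy e = 0 := by omega
      rw [h0'] at hld'
      have h5 : l ^ 2 ∣ dd t c := by simpa using hld'
      have h6 := Nat.le_of_dvd hdd h5
      have h7 : ((dd t c : ℕ) : ℝ) < (l : ℝ) := by linarith
      have h8 : dd t c < l := by exact_mod_cast h7
      nlinarith
    · apply Nat.le_floor
      have h5 : (NN e : ℝ) ≤ X ^ 2 := by
        unfold NN
        push_cast
        rw [pow_two]
        exact mul_le_mul h1 h2 (Nat.cast_nonneg _) (by linarith)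
      have h4' : (4 : ℝ) * NN e = (yy e : ℝ) ^ 2 + dd t c := by exact_mod_cast h4
      have h6 : ((yy e : ℕ) : ℝ) ^ 2 ≤ (2 * X) ^ 2 := by
        have : (0 : ℝ) ≤ dd t c := Nat.cast_nonneg _
        nlinarith
      exact (pow_le_pow_iff_left₀ (Nat.cast_nonneg _) (by linarith) two_ne_zero).1 h6
    · exact (Nat.floor_lt (by linarith)).2 hlL
  have h1 : T.card ≤ ∑ k ∈ PX (dd t c) ⌊L⌋₊ ⌊2 * X⌋₊, 12 * (k ^ 2 + dd t c).divisors.card := by
    rw [card_eq_sum_card_fiberwise hmap]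
    refine sum_le_sum fun k _ => ?_
    refine fibre_card hD hM k _ fun e he => ?_
    rw [mem_filter] at he
    refine ⟨?_, he.2⟩
    have h2 := he.1
    rw [hT, mem_filter] at h2
    unfold dedge at h2
    rw [mem_filter] at h2
    exact h2.1.2
  calc (T.card : ℝ) ≤ ((∑ k ∈ PX (dd t c) ⌊L⌋₊ ⌊2 * X⌋₊,
        12 * (k ^ 2 + dd t c).divisors.card : ℕ) : ℝ) := by
        exact_mod_cast h1
    _ = _ := by push_cast; rw [mul_sum]

theorem large_fin (X S l δ K : ℝ) (hX : 0 < X) (hl : 0 < l) (hδ : 0 < δ) (hK : 0 ≤ K)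
    (h7 : 12 * K / δ ≤ l) (h5 : S ^ 2 ≤ (K * X / l) ^ 2) : 12 * S ≤ δ * X := by
  have h8 : S ≤ K * X / l := by
    exact le_of_sq_le_sq' h5 (by positivity)
  have h9 : 12 * K ≤ δ * l := by
    rw [div_le_iff₀ hδ] at h7
    linarith
  have h10 : 12 * (K * X / l) ≤ δ * X := by
    rw [← mul_div_assoc, div_le_iff₀ hl]
    nlinarith
  linarith
where
  le_of_sq_le_sq' {a b : ℝ} (h : a ^ 2 ≤ b ^ 2) (hb : 0 ≤ b) : a ≤ b := by
    by_contra hlt
    push Not at hlt
    nlinarith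

/-- GA-22 -/
theorem large_of (hD : t ^ 2 < 4 * c) : S_MULT t c → S_LARGE t c := by
  classical
  intro hM
  refine ⟨34, fun δ hδ => ?_⟩
  set D := dd t c with hDdef
  have hdd : 0 < D := dd_pos hD
  have hDr : (1 : ℝ) ≤ D := by exact_mod_cast hdd
  -- the constant
  set K2 : ℝ := (24 * D + 1) * (36 * D * 4 ^ 32) with hK2
  have hK20 : 0 ≤ K2 := by positivity
  set K : ℝ := Real.sqrt K2 with hK
  have hK0 : 0 ≤ K := Real.sqrt_nonneg _
  have hKK : K ^ 2 = K2 := Real.sq_sqrt hK20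
  have h1 : ∀ᶠ X : ℝ in atTop, max ((D : ℝ) + 1) (12 * K / δ) ≤ Real.log X :=
    Real.tendsto_log_atTop.eventually_ge_atTop _
  have ev : ∀ᶠ X : ℝ in atTop, (open scoped Classical in
    (((dedge t c X).filter (fun e => ∃ l : ℕ, l.Prime ∧ Real.log X ^ 34 < (l : ℝ) ∧
      l ^ 2 ∣ NN e)).card : ℝ)) ≤ δ * X := by
    filter_upwards [h1, card_PX_ev D hdd, eventually_ge_atTop (16 + (D : ℝ))] with X hl hcard hX
    have hX0 : (0 : ℝ) < X := by linarith
    have hX1 : (1 : ℝ) ≤ X := by linarith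
    have hl1 : (D : ℝ) + 1 ≤ Real.log X := (le_max_left _ _).trans hl
    have hl1' : 1 ≤ Real.log X := by linarith
    have hl2 : 12 * K / δ ≤ Real.log X := (le_max_right _ _).trans hl
    have hℓ0 : 0 < Real.log X := by linarith
    have hlpow : Real.log X ≤ Real.log X ^ 34 := le_self_pow₀ hl1' (by norm_num)
    refine (large_card hD hM X hX1 (Real.log X ^ 34) (one_le_pow₀ hl1') (by linarith)).trans ?_
    have h2 := large_sq D ⌊Real.log X ^ 34⌋₊ ⌊2 * X⌋₊ hdd
    have hN : (⌊2 * X⌋₊ : ℝ) ≤ 2 * X := Nat.floor_le (by linarith)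
    have hN0 : (0 : ℝ) ≤ (⌊2 * X⌋₊ : ℝ) := Nat.cast_nonneg _
    have hND : ((⌊2 * X⌋₊ : ℝ) + D) ≤ 3 * X := by linarith
    have hND1 : (1 : ℝ) ≤ (⌊2 * X⌋₊ : ℝ) + D := by linarith
    have hlogN : Real.log ((⌊2 * X⌋₊ + D : ℕ) : ℝ) ≤ 2 + Real.log X := by
      push_cast
      have h3 := Real.log_le_log (by linarith) hND
      rw [Real.log_mul (by norm_num) hX0.ne'] at h3
      have h4 : Real.log 3 ≤ 2 := by
        have := Real.log_le_sub_one_of_pos (show (0 : ℝ) < 3 by norm_num)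
        linarith
      linarith
    have hlogN0 : 0 ≤ Real.log ((⌊2 * X⌋₊ + D : ℕ) : ℝ) := by
      push_cast
      exact Real.log_nonneg hND1
    have h3 : (1 + Real.log ((⌊2 * X⌋₊ + D : ℕ) : ℝ)) ^ 32 ≤ (4 * Real.log X) ^ 32 :=
      pow_le_pow_left₀ (by linarith) (by linarith) 32
    have h4 : 12 * (D : ℝ) * ((⌊2 * X⌋₊ : ℝ) + D) * (1 + Real.log ((⌊2 * X⌋₊ + D : ℕ) : ℝ)) ^ 32 ≤
        12 * D * (3 * X) * (4 * Real.log X) ^ 32 :=
      mul_le_mul (mul_le_mul_of_nonneg_left hND (by positivity)) h3 (by positivity) (by positivity)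
    have h5 := h2.trans (mul_le_mul hcard h4 (by positivity) (by positivity))
    have h6 : (24 * (D : ℝ) + 1) * (X / Real.log X ^ 34) *
        (12 * D * (3 * X) * (4 * Real.log X) ^ 32) = (K * X / Real.log X) ^ 2 := by
      rw [div_pow, mul_pow K X, hKK, hK2, mul_pow]
      field_simp
      ring
    rw [h6] at h5
    exact large_fin X _ _ δ K hX0 hℓ0 hδ hK0 hl2 h5
  exact eventually_atTop.1 ev

end Pool.Agent.W898.GA
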